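import Pool.Agent.Helper86.AN.Stmts

/-! ADJ1 (MP_4042d8_co): adjacent pattern, first part. -/

set_option autoImplicit false

namespace Pool.Agent.Helper25.AN

open Finset
open Pool.Agent.Helper86.AN

theorem sp_swap {V : Type} {s : Equiv.Perm V} {u : Bool → V} {i : Bool} {k l : V}
    (h : Sp s u i k l) : Sp s u i l k := by
  unfold Sp at h ⊢
  tauto

theorem sp_left {V : Type} {s : Equiv.Perm V} {u : Bool → V} {i : Bool} {k l : V}
    (h : Sp s u i k l) : k = s (u i) ∨ k = s.symm (u i) := by
  unfold Sp at h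
  tauto

theorem sp_all {V : Type} {s : Equiv.Perm V} {u : Bool → V} {i : Bool} {k l k' l' : V}
    (h : Sp s u i k l) (h' : Sp s u (!i) k' l') (v : V) (i' : Bool)
    (hv : v = s (u i') ∨ v = s.symm (u i')) : v = k ∨ v = l ∨ v = k' ∨ v = l' := by
  unfold Sp at h h'
  cases i <;> cases i' <;> simp only [Bool.not_true, Bool.not_false] at h' <;>
    rcases h with ⟨h1, h2⟩ | ⟨h1, h2⟩ <;> rcases h' with ⟨h3, h4⟩ | ⟨h3, h4⟩ <;>
    rcases hv with hv | hv <;> simp [h1, h2, h3, h4, hv]

theorem st_ADJ1 (hL2 : ST_L2) (hL2Q : ST_L2Q) (hLC : ST_LC) (hLX : ST_LX) (hPOS : ST_POS)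
    (hCOL : ST_COL) (hRF : ST_RF) (hENV : ST_ENVF) : ST_ADJ1 := by
  intro V _ _ s A m w u n e c₀ i a b c d hK hZ hE hab hbc hcd hda hs1 hs2
  by_cases hG : Good s A m
  · exact Or.inl hG
  right
  obtain ⟨_, r2, _, _, r5, r6, r7, _, _⟩ := hRF V s A m w u hK
  obtain ⟨_, _, v3, _, _⟩ := hENV V s A m w u n e c₀ hK hZ hE
  have hwea : w (e a) ∈ Ap A u := (hK.winv (e a) (hZ.eA a)).1
  -- the vertex `w (e a)` is not a neighbour of a kink
  have hnk : ∀ i', rr s w (w (e a)) ≠ u i' := by
    intro i' h
    rcases sp_all hs1 hs2 (w (e a)) i' ((r6 _ hwea i').1 h) with h1 | h1 | h1 | h1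
    · exact v3 a a h1.symm
    · exact v3 b a h1.symm
    · exact v3 c a h1.symm
    · exact v3 d a h1.symm
  have hz : rr s w (w (e a)) ∈ Ap A u := (r2 _).2 ⟨(r5 _ hwea).1, hnk⟩
  have hrz : rr s w (rr s w (w (e a))) = w (e a) := r7 _ hwea hz
  have hed : e (d - n) = e d := by
    rw [hZ.per]
    exact ⟨-1, by ring⟩
  have hs2' : Sp s u (!i) (e (d - n)) (e c) := by
    rw [hed]
    exact sp_swap hs2
  have hs1' : Sp s u (!!i) (e a) (e b) := by
    rw [Bool.not_not]
    exact hs1
  have hc1 : ∀ c', Env A m w u e c' → col w u e (!i) c' (d - n) a (rr s w (w (e a))) = true := by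
    intro c' hc'
    obtain ⟨_, k2, _⟩ := hCOL V s A m w u n e c' (!i) (d - n) a hK hZ hc' (by linarith)
      (by linarith)
    have h1 : col w u e (!i) c' (d - n) a (e c) = true :=
      (k2 c (by linarith) (by linarith)).2 (by linarith)
    have h2 : col w u e (!i) c' (d - n) a (e b) = true :=
      (k2 b (by linarith) (by linarith)).2 hab
    have h3 := hL2 V s A m w u n e c' (!i) (d - n) a c b hK hZ hc' (by linarith) (by linarith)
      hs2' hs1'
    have h4 := hL2Q V s A m w u n e c' (!i) (d - n) a c b hK hZ hc' (by linarith) (by linarith)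
      hs2' hs1' h1 h2
    by_contra h5
    rw [Bool.not_eq_true] at h5
    have h6 : col w u e (!i) c' (d - n) a (rr s w (w (e (d - n)))) = false := by
      by_contra h7
      exact hG (h3 fun h8 => h7 (h8.trans h5))
    exact hG (h4 h6 h5)
  have hc2 : ∀ c', Env A m w u e c' → col w u e i c' a b (rr s w (w (e a))) = true := by
    intro c' hc'
    obtain ⟨_, k2, _⟩ := hCOL V s A m w u n e c' i a b hK hZ hc' hab (by linarith)
    have h1 : col w u e i c' a b (e c) = true :=
      (k2 c (by linarith) (by linarith)).2 hbc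
    have h2 : col w u e i c' a b (e d) = true :=
      (k2 d (by linarith) (by linarith)).2 (by linarith)
    have h3 := hLC V s A m w u n e c' i a b c d hK hZ hc' hab (by linarith) hs1 hs2 h1 h2
    by_contra h5
    rw [Bool.not_eq_true] at h5
    exact hG (h3 h5)
  obtain ⟨t, hbt, htd, hzt⟩ := hPOS V s A m w u n e c₀ (!i) i (d - n) a b (rr s w (w (e a)))
    hK hZ hE hz (by linarith) hab (by linarith) hc1 hc2
  have htd' : t ≤ d := by linarith
  have hret : rr s w (e t) = w (e a) := by
    rw [← hzt]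
    exact hrz
  have hnn : ∀ i', e t ≠ s (u i') ∧ e t ≠ s.symm (u i') := by
    intro i'
    have h1 : rr s w (e t) ≠ u i' := by
      rw [hret]
      exact ((r2 _).1 hwea).2 i'
    have h2 := fun h => h1 ((r6 _ (hZ.eA t) i').2 h)
    exact ⟨fun h => h2 (Or.inl h), fun h => h2 (Or.inr h)⟩
  have htc : t ≠ c := by
    rintro rfl
    rcases sp_left hs2 with h | h
    · exact (hnn (!i)).1 h
    · exact (hnn (!i)).2 h
  have htd2 : t ≠ d := by
    rintro rfl
    rcases sp_left (sp_swap hs2) with h | h
    · exact (hnn (!i)).1 h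
    · exact (hnn (!i)).2 h
  rcases lt_or_gt_of_ne htc with h | h
  · exact ⟨t, hbt, h, hzt⟩
  · exfalso
    have htd3 : t < d := lt_of_le_of_ne htd' htd2
    obtain ⟨_, k2, k3, _⟩ := hCOL V s A m w u n e c₀ i a t hK hZ hE (by linarith) (by linarith)
    have g1 : col w u e i c₀ a t (e b) = false := by
      rw [← Bool.not_eq_true]
      intro h'
      have := (k2 b hab (by linarith)).1 h'
      linarith
    have g2 : col w u e i c₀ a t (e d) = true :=
      (k2 d (by linarith) (by linarith)).2 htd3
    have g3 : col w u e i c₀ a t (e c) = false := by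
      rw [← Bool.not_eq_true]
      intro h'
      have := (k2 c (by linarith) (by linarith)).1 h'
      linarith
    have g4 : col w u e i c₀ a t (rr s w (w (e a))) = false := by
      rw [hzt, ← Bool.not_eq_true]
      intro h'
      have := (k2 t (by linarith) (by linarith)).1 h'
      linarith
    have g5 : col w u e i c₀ a t (rr s w (e t)) = true := by
      rw [hret]
      exact (k3 a le_rfl (by linarith)).2 (by linarith)
    exact hG (hLX V s A m w u n e c₀ i a t b d c hK hZ hE (by linarith) (by linarith) hs1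
      (sp_swap hs2) hnn g1 g2 g3 g4 g5)

end Pool.Agent.Helper25.AN
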